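import Mathlib
import Pool.Agent.U450.SV.Stm

/-!
# Project SV, package KOS, part A: the dual of the polynomial ring as a module over `g0`
-/

set_option autoImplicit false

universe u

namespace Pool.Agent.U256.SV.KOS

open Pool.Agent.U450.SV MvPolynomial

section Poly

variable {k : Type u} [Field k] {m : ℕ}

/-- the dual of the polynomial ring -/
abbrev ND (k : Type u) [Field k] (m : ℕ) : Type u := Module.Dual k (MvPolynomial (Fin m) k)

/-- transposed multiplication by `Q` -/
noncomputable def mT (Q : MvPolynomial (Fin m) k) : Module.End k (ND k m) :=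
  (LinearMap.mulLeft k Q).dualMap

@[simp] lemma mT_apply (Q : MvPolynomial (Fin m) k) (φ : ND k m) (P : MvPolynomial (Fin m) k) :
    mT Q φ P = φ (Q * P) := rfl

/-- projection to the functionals supported in degree `n` -/
noncomputable def pn (n : ℕ) : Module.End k (ND k m) :=
  (homogeneousComponent n : MvPolynomial (Fin m) k →ₗ[k] MvPolynomial (Fin m) k).dualMap

@[simp] lemma pn_apply (n : ℕ) (φ : ND k m) (P : MvPolynomial (Fin m) k) :
    pn n φ P = φ (homogeneousComponent n P) := rfl

/-- a linear endomorphism which raises the degree by `c` commutes with the homogeneous components -/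
lemma hC_comm (D : MvPolynomial (Fin m) k →ₗ[k] MvPolynomial (Fin m) k) (c : ℕ)
    (h : ∀ n P, P.IsHomogeneous n → (D P).IsHomogeneous (n + c)) (n : ℕ)
    (P : MvPolynomial (Fin m) k) :
    homogeneousComponent (n + c) (D P) = D (homogeneousComponent n P) := by
  conv_lhs => rw [← sum_homogeneousComponent P]
  rw [map_sum, map_sum]
  have h1 : ∀ i ∈ Finset.range (P.totalDegree + 1),
      homogeneousComponent (n + c) (D (homogeneousComponent i P)) =
        if i = n then D (homogeneousComponent n P) else 0 := by
    intro i _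
    have h2 : D (homogeneousComponent i P) ∈ homogeneousSubmodule (Fin m) k (i + c) :=
      h i _ (homogeneousComponent_isHomogeneous i P)
    rw [homogeneousComponent_of_mem h2]
    by_cases h3 : i = n
    · subst h3
      simp
    · rw [if_neg h3, if_neg (by omega)]
  rw [Finset.sum_congr rfl h1, Finset.sum_ite_eq']
  split_ifs with h4
  · rfl
  · have h5 : P.totalDegree < n := by
      simpa using h4
    rw [homogeneousComponent_eq_zero _ _ h5, map_zero]

lemma hC_zero (D : MvPolynomial (Fin m) k →ₗ[k] MvPolynomial (Fin m) k)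
    (h : ∀ n P, P.IsHomogeneous n → (D P).IsHomogeneous (n + 1))
    (P : MvPolynomial (Fin m) k) : homogeneousComponent 0 (D P) = 0 := by
  conv_lhs => rw [← sum_homogeneousComponent P]
  rw [map_sum, map_sum]
  refine Finset.sum_eq_zero fun i _ => ?_
  have h2 : D (homogeneousComponent i P) ∈ homogeneousSubmodule (Fin m) k (i + 1) :=
    h i _ (homogeneousComponent_isHomogeneous i P)
  rw [homogeneousComponent_of_mem h2, if_neg (by omega)]

lemma hC_X (i : Fin m) (n : ℕ) (P : MvPolynomial (Fin m) k) :
    homogeneousComponent (n + 1) (X i * P) = X i * homogeneousComponent n P := by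
  refine hC_comm (LinearMap.mulLeft k (X i)) 1 ?_ n P
  intro n P h
  have := (isHomogeneous_X k i).mul h
  rw [add_comm] at this
  exact this

lemma hC_X_zero (i : Fin m) (P : MvPolynomial (Fin m) k) :
    homogeneousComponent 0 (X i * P) = 0 := by
  refine hC_zero (LinearMap.mulLeft k (X i)) ?_ P
  intro n P h
  have := (isHomogeneous_X k i).mul h
  rw [add_comm] at this
  exact this

lemma pn_mT (i : Fin m) (n : ℕ) (φ : ND k m) : mT (X i) (pn (n + 1) φ) = pn n (mT (X i) φ) := by
  refine LinearMap.ext fun P => ?_
  simp only [mT_apply, pn_apply]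
  rw [hC_X]

lemma pn_mT_zero (i : Fin m) (φ : ND k m) : mT (X i) (pn 0 φ) = 0 := by
  refine LinearMap.ext fun P => ?_
  simp only [mT_apply, pn_apply]
  rw [hC_X_zero]
  simp

lemma pn_pn (n : ℕ) (φ : ND k m) : pn n (pn n φ) = pn n φ := by
  refine LinearMap.ext fun P => ?_
  simp only [pn_apply]
  rw [homogeneousComponent_of_mem (homogeneousComponent_isHomogeneous n P), if_pos rfl]

end Poly

section Lie

variable {k g0 g1 : Type u} [Field k] [AddCommGroup g0] [Module k g0]
  [AddCommGroup g1] [Module k g1] {m : ℕ}

/-- the derivation of the polynomial ring given by `a ∈ g0` -/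
noncomputable def der (L : LieSuper k g0 g1) (y : Module.Basis (Fin m) k g1) (a : g0) :
    Derivation k (MvPolynomial (Fin m) k) (MvPolynomial (Fin m) k) :=
  mkDerivation k (fun i => - ∑ l, C (y.repr (L.b01 a (y l)) i) * X l)

lemma der_X (L : LieSuper k g0 g1) (y : Module.Basis (Fin m) k g1) (a : g0) (i : Fin m) :
    der L y a (X i) = - ∑ l, C (y.repr (L.b01 a (y l)) i) * X l := by
  rw [der, mkDerivation_X]

lemma der_add (L : LieSuper k g0 g1) (y : Module.Basis (Fin m) k g1) (a b : g0) :
    der L y (a + b) = der L y a + der L y b := by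
  refine derivation_ext fun i => ?_
  rw [Derivation.add_apply, der_X, der_X, der_X, ← neg_add, ← Finset.sum_add_distrib]
  congr 1
  refine Finset.sum_congr rfl fun l _ => ?_
  simp [add_mul]

lemma der_smul (L : LieSuper k g0 g1) (y : Module.Basis (Fin m) k g1) (c : k) (a : g0) :
    der L y (c • a) = c • der L y a := by
  refine derivation_ext fun i => ?_
  rw [Derivation.smul_apply, der_X, der_X, smul_neg, Finset.smul_sum]
  congr 1
  refine Finset.sum_congr rfl fun l _ => ?_
  simp [smul_eq_C_mul, mul_assoc]

/-- the linear form `ξ` as a polynomial -/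
noncomputable def lin (y : Module.Basis (Fin m) k g1) (ξ : g1 →ₗ[k] k) : MvPolynomial (Fin m) k :=
  ∑ l, C (ξ (y l)) * X l

lemma eval_lin (y : Module.Basis (Fin m) k g1) (ξ : g1 →ₗ[k] k) (x : g1) :
    eval (fun i => y.repr x i) (lin y ξ) = ξ x := by
  conv_rhs => rw [← y.sum_repr x]
  simp only [lin, map_sum, map_mul, eval_C, eval_X, map_smul, smul_eq_mul]
  exact Finset.sum_congr rfl fun l _ => mul_comm _ _

lemma der_lin (L : LieSuper k g0 g1) (y : Module.Basis (Fin m) k g1) (a : g0) (ξ : g1 →ₗ[k] k) :
    der L y a (lin y ξ) = - lin y (ξ ∘ₗ L.b01 a) := by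
  have h : ∀ l, ξ (L.b01 a (y l)) = ∑ i, ξ (y i) * y.repr (L.b01 a (y l)) i := by
    intro l
    conv_lhs => rw [← y.sum_repr (L.b01 a (y l))]
    simp only [map_sum, map_smul, smul_eq_mul]
    exact Finset.sum_congr rfl fun i _ => mul_comm _ _
  simp only [lin, map_sum, LinearMap.comp_apply]
  have h1 : ∀ l, der L y a (C (ξ (y l)) * X l) = - ∑ j, C (ξ (y l)) * (C (y.repr (L.b01 a (y j)) l) * X j) := by
    intro l
    rw [← smul_eq_C_mul, Derivation.map_smul, der_X, smul_neg, Finset.smul_sum]
    congr 1
    exact Finset.sum_congr rfl fun j _ => smul_eq_C_mul _ _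
  simp only [h1]
  rw [Finset.sum_neg_distrib, Finset.sum_comm]
  congr 1
  refine Finset.sum_congr rfl fun j _ => ?_
  rw [h, map_sum, Finset.sum_mul]
  refine Finset.sum_congr rfl fun l _ => ?_
  rw [map_mul, mul_assoc]

lemma der_X' (L : LieSuper k g0 g1) (y : Module.Basis (Fin m) k g1) (a : g0) (i : Fin m) :
    der L y a (X i) = - lin y (y.coord i ∘ₗ L.b01 a) := by
  rw [der_X, lin]
  rfl

lemma der_bracket (L : LieSuper k g0 g1) (y : Module.Basis (Fin m) k g1) (a b : g0)
    (P : MvPolynomial (Fin m) k) :
    der L y (L.b00 a b) P = der L y a (der L y b P) - der L y b (der L y a P) := by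
  have h : der L y (L.b00 a b) = ⁅der L y a, der L y b⁆ := by
    refine derivation_ext fun i => ?_
    rw [Derivation.commutator_apply, der_X', der_X', der_X', map_neg, map_neg, der_lin, der_lin,
      neg_neg, neg_neg]
    simp only [lin, LinearMap.comp_apply]
    rw [← Finset.sum_sub_distrib, ← Finset.sum_neg_distrib]
    refine Finset.sum_congr rfl fun l _ => ?_
    rw [← sub_mul, ← map_sub, ← neg_mul, ← map_neg]
    congr 2
    have := L.jac001 a b (y l)
    rw [← map_sub, ← map_neg]
    congr 1
    rw [this]
    abel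
  rw [h, Derivation.commutator_apply]

lemma der_homog (L : LieSuper k g0 g1) (y : Module.Basis (Fin m) k g1) (a : g0) (n : ℕ)
    (P : MvPolynomial (Fin m) k) (hP : P.IsHomogeneous n) : (der L y a P).IsHomogeneous n := by
  have h : der L y a = ∑ i, (der L y a (X i)) • pderiv (R := k) i := by
    refine derivation_ext fun j => ?_
    have : ∀ s : Finset (Fin m), (∑ i ∈ s, (der L y a (X i)) • pderiv (R := k) i) (X j) =
        ∑ i ∈ s, der L y a (X i) * pderiv i (X j) := by
      intro s
      induction s using Finset.induction_on with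
      | empty => simp
      | insert i s hi ih => rw [Finset.sum_insert hi, Finset.sum_insert hi, Derivation.add_apply, ih]; rfl
    rw [this, Finset.sum_eq_single j]
    · simp
    · intro i _ hij
      rw [pderiv_X_of_ne (Ne.symm hij), mul_zero]
    · intro h
      exact absurd (Finset.mem_univ j) h
  have h2 : der L y a P = ∑ i, der L y a (X i) * pderiv i P := by
    have : ∀ s : Finset (Fin m), (∑ i ∈ s, (der L y a (X i)) • pderiv (R := k) i) P =
        ∑ i ∈ s, der L y a (X i) * pderiv i P := by
      intro s
      induction s using Finset.induction_on with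
      | empty => simp
      | insert i s hi ih => rw [Finset.sum_insert hi, Finset.sum_insert hi, Derivation.add_apply, ih]; rfl
    conv_lhs => rw [h]
    rw [this]
  rw [h2]
  refine IsHomogeneous.sum _ _ _ fun i _ => ?_
  rcases Nat.eq_zero_or_pos n with hn | hn
  · subst hn
    have h3 : pderiv i P = 0 := by
      have h4 := totalDegree_eq_zero_iff_eq_C.1 ((totalDegree_zero_iff_isHomogeneous (Fin m)).2 hP)
      rw [h4, pderiv_C]
    rw [h3, mul_zero]
    exact isHomogeneous_zero _ _ _
  · have h3 : (der L y a (X i)).IsHomogeneous 1 := by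
      rw [der_X]
      refine IsHomogeneous.neg ?_
      refine IsHomogeneous.sum _ _ _ fun l _ => ?_
      have := (isHomogeneous_C (Fin m) (y.repr (L.b01 a (y l)) i)).mul (isHomogeneous_X k l)
      simpa using this
    have h4 := h3.mul (hP.pderiv (i := i))
    have h5 : 1 + (n - 1) = n := by omega
    rw [h5] at h4
    exact h4

/-- the action of `g0` on the dual of the polynomial ring -/
noncomputable def n0 (L : LieSuper k g0 g1) (y : Module.Basis (Fin m) k g1) :
    g0 →ₗ[k] Module.End k (ND k m) where
  toFun a := - ((der L y a : MvPolynomial (Fin m) k →ₗ[k] MvPolynomial (Fin m) k)).dualMap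
  map_add' a b := by
    refine LinearMap.ext fun φ => LinearMap.ext fun P => ?_
    simp [der_add, LinearMap.dualMap_apply]
    ring
  map_smul' c a := by
    refine LinearMap.ext fun φ => LinearMap.ext fun P => ?_
    simp [der_smul, LinearMap.dualMap_apply]

lemma n0_apply (L : LieSuper k g0 g1) (y : Module.Basis (Fin m) k g1) (a : g0) (φ : ND k m)
    (P : MvPolynomial (Fin m) k) : n0 L y a φ P = - φ (der L y a P) := rfl

lemma n0_hom (L : LieSuper k g0 g1) (y : Module.Basis (Fin m) k g1) (a b : g0) :
    n0 L y (L.b00 a b) = n0 L y a * n0 L y b - n0 L y b * n0 L y a := by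
  refine LinearMap.ext fun φ => LinearMap.ext fun P => ?_
  rw [n0_apply, der_bracket]
  simp only [LinearMap.sub_apply, Module.End.mul_apply, n0_apply, map_sub]
  ring

lemma n0_pn (L : LieSuper k g0 g1) (y : Module.Basis (Fin m) k g1) (a : g0) (n : ℕ) (φ : ND k m) :
    pn n (n0 L y a φ) = n0 L y a (pn n φ) := by
  refine LinearMap.ext fun P => ?_
  rw [pn_apply, n0_apply, n0_apply, pn_apply]
  have := hC_comm (der L y a : MvPolynomial (Fin m) k →ₗ[k] MvPolynomial (Fin m) k) 0
    (fun n P h => der_homog L y a n P h) n P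
  simp only [add_zero] at this
  rw [show homogeneousComponent n (der L y a P) = der L y a (homogeneousComponent n P) from this]

/-- compatibility of the action with multiplication -/
lemma n0_mT (L : LieSuper k g0 g1) (y : Module.Basis (Fin m) k g1) (a : g0)
    (Q : MvPolynomial (Fin m) k) (φ : ND k m) :
    mT Q (n0 L y a φ) = n0 L y a (mT Q φ) - mT (der L y a Q) φ := by
  refine LinearMap.ext fun P => ?_
  rw [LinearMap.sub_apply, mT_apply, n0_apply, n0_apply, mT_apply, mT_apply, Derivation.leibniz,
    map_add, smul_eq_mul, smul_eq_mul, mul_comm P]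
  ring

end Lie

end Pool.Agent.U256.SV.KOS
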