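import Mathlib
import Pool.Agent.U450.SV.Stm
import Pool.Agent.U256.SV.KA

/-!
# Project SV, package KOS, part B: the Koszul differential and its homotopy
-/

set_option autoImplicit false

universe u

namespace Pool.Agent.U256.SV.KOS

open Pool.Agent.U450.SV MvPolynomial

section

variable {k : Type u} [Field k] {m : ℕ}

/-- the sign of moving the `j`-th vector over the larger ones of `T` -/
def sg (k : Type u) [Field k] {m : ℕ} (T : Finset (Fin m)) (j : Fin m) : k :=
  (-1 : k) ^ (T.filter (fun l => j < l)).card

/-- Koszul differential (right multiplication by `∑ y_j ⊗ X_j`) -/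
noncomputable def D0 (v : Finset (Fin m) → ND k m) : Finset (Fin m) → ND k m :=
  fun T => ∑ j ∈ T, sg k T j • mT (X j) (v (T.erase j))

lemma D0_add (v w : Finset (Fin m) → ND k m) : D0 (v + w) = D0 v + D0 w := by
  funext T
  simp only [D0, Pi.add_apply, map_add, smul_add, Finset.sum_add_distrib]

lemma D0_smul (c : k) (v : Finset (Fin m) → ND k m) : D0 (c • v) = c • D0 v := by
  funext T
  simp only [D0, Pi.smul_apply, map_smul, Finset.smul_sum]
  exact Finset.sum_congr rfl fun j _ => smul_comm _ _ _

/-- Koszul differential as a linear map -/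
noncomputable def D0L : (Finset (Fin m) → ND k m) →ₗ[k] (Finset (Fin m) → ND k m) where
  toFun := D0
  map_add' := D0_add
  map_smul' := D0_smul

lemma card_lt_erase (T : Finset (Fin m)) (i j : Fin m) (hi : i ∈ T) :
    ((T.erase i).filter (fun l => j < l)).card + (if j < i then 1 else 0) =
      (T.filter (fun l => j < l)).card := by
  rw [Finset.filter_erase]
  split_ifs with h
  · rw [Finset.card_erase_add_one]
    simp [hi, h]
  · rw [Finset.erase_eq_of_notMem (by simp [h])]
    rfl

lemma card_gt_erase (T : Finset (Fin m)) (i j : Fin m) (hj : j ∈ T) :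
    ((T.erase j).filter (fun l => l < i)).card + (if j < i then 1 else 0) =
      (T.filter (fun l => l < i)).card := by
  rw [Finset.filter_erase]
  split_ifs with h
  · rw [Finset.card_erase_add_one]
    simp [hj, h]
  · rw [Finset.erase_eq_of_notMem (by simp [h])]
    rfl

/-- left and right multiplication commute -/
lemma eop_D0 (i : Fin m) (v : Finset (Fin m) → ND k m) :
    eop k m (ND k m) i (D0 v) = D0 (eop k m (ND k m) i v) := by
  funext T
  change (if i ∈ T then ((-1 : k) ^ (T.filter (fun j => j < i)).card) • (D0 v) (T.erase i) else 0) =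
    ∑ j ∈ T, sg k T j • mT (X j) (if i ∈ T.erase j then
      ((-1 : k) ^ ((T.erase j).filter (fun l => l < i)).card) • v ((T.erase j).erase i) else 0)
  by_cases hi : i ∈ T
  · rw [if_pos hi, ← Finset.add_sum_erase T _ hi]
    have h0 : i ∉ T.erase i := Finset.notMem_erase i T
    rw [if_neg h0, map_zero, smul_zero, zero_add, D0, Finset.smul_sum]
    refine Finset.sum_congr rfl fun j hj => ?_
    have hji : j ≠ i := Finset.ne_of_mem_erase hj
    have hjT : j ∈ T := Finset.mem_of_mem_erase hj
    rw [if_pos (Finset.mem_erase.2 ⟨hji.symm, hi⟩), map_smul, smul_smul, smul_smul,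
      Finset.erase_right_comm]
    congr 1
    rw [sg, sg, ← pow_add, ← pow_add]
    congr 1
    have h1 := card_lt_erase T i j hi
    have h2 := card_gt_erase T i j hjT
    omega
  · rw [if_neg hi]
    refine (Finset.sum_eq_zero fun j _ => ?_).symm
    rw [if_neg (fun h => hi (Finset.mem_of_mem_erase h)), map_zero, smul_zero]

lemma eop_single (i : Fin m) (S : Finset (Fin m)) (n : ND k m) (h : ∀ j ∈ S, i < j) :
    eop k m (ND k m) i (Pi.single S n) = Pi.single (insert i S) n := by
  have hiS : i ∉ S := fun h' => lt_irrefl _ (h i h')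
  funext T
  change (if i ∈ T then ((-1 : k) ^ (T.filter (fun j => j < i)).card) •
    (Pi.single S n : Finset (Fin m) → ND k m) (T.erase i) else 0) = _
  by_cases hT : T = insert i S
  · subst hT
    rw [if_pos (Finset.mem_insert_self i S), Pi.single_eq_same, Finset.erase_insert hiS,
      Pi.single_eq_same]
    have : ((insert i S).filter (fun j => j < i)) = ∅ := by
      refine Finset.filter_eq_empty_iff.2 fun j hj => ?_
      rcases Finset.mem_insert.1 hj with rfl | h1
      · exact lt_irrefl _
      · exact not_lt.2 (h j h1).le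
    rw [this]
    simp
  · rw [Pi.single_eq_of_ne hT]
    split_ifs with hi
    · rw [Pi.single_eq_of_ne, smul_zero]
      rintro rfl
      exact hT (Finset.insert_erase hi).symm
    · rfl

/-- the contracting homotopy of the Koszul complex -/
noncomputable def sK (v : Finset (Fin m) → ND k m) : Finset (Fin m) → ND k m :=
  fun T => (basisMonomials (Fin m) k).constr k (fun α => ∑ i : Fin m,
    if i ∉ T ∧ α i ≠ 0 ∧ (∀ j ∈ T, j ≤ i) ∧ (∀ j, α j ≠ 0 → j ≤ i) then
      v (insert i T) (monomial (α - Finsupp.single i 1) 1) else 0)

lemma sK_apply (v : Finset (Fin m) → ND k m) (T : Finset (Fin m)) (α : Fin m →₀ ℕ) :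
    sK v T (monomial α 1) = ∑ i : Fin m,
      if i ∉ T ∧ α i ≠ 0 ∧ (∀ j ∈ T, j ≤ i) ∧ (∀ j, α j ≠ 0 → j ≤ i) then
        v (insert i T) (monomial (α - Finsupp.single i 1) 1) else 0 := by
  have := (basisMonomials (Fin m) k).constr_basis k (fun α => ∑ i : Fin m,
    if i ∉ T ∧ α i ≠ 0 ∧ (∀ j ∈ T, j ≤ i) ∧ (∀ j, α j ≠ 0 → j ≤ i) then
      v (insert i T) (monomial (α - Finsupp.single i 1) 1) else 0) α
  rw [coe_basisMonomials] at this
  exact this

/-- at most one term of the homotopy is not zero -/
lemma sK_apply_of (v : Finset (Fin m) → ND k m) (T : Finset (Fin m)) (α : Fin m →₀ ℕ) (i : Fin m)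
    (h1 : i ∉ T) (h2 : α i ≠ 0) (h3 : ∀ j ∈ T, j ≤ i) (h4 : ∀ j, α j ≠ 0 → j ≤ i) :
    sK v T (monomial α 1) = v (insert i T) (monomial (α - Finsupp.single i 1) 1) := by
  rw [sK_apply, Finset.sum_eq_single i]
  · rw [if_pos ⟨h1, h2, h3, h4⟩]
  · intro j _ hj
    rw [if_neg]
    rintro ⟨_, h6, _, h8⟩
    exact hj (le_antisymm (h4 j h6) (h8 i h2))
  · intro h
    exact absurd (Finset.mem_univ i) h

lemma sK_apply_zero (v : Finset (Fin m) → ND k m) (T : Finset (Fin m)) (α : Fin m →₀ ℕ) (i : Fin m)
    (h1 : i ∈ T) (h4 : ∀ j, α j ≠ 0 → j ≤ i) :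
    sK v T (monomial α 1) = 0 := by
  rw [sK_apply]
  refine Finset.sum_eq_zero fun j _ => ?_
  rw [if_neg]
  rintro ⟨h5, h6, h7, _⟩
  have := le_antisymm (h4 j h6) (h7 i h1)
  exact h5 (this ▸ h1)

lemma D0_apply_monomial (v : Finset (Fin m) → ND k m) (T : Finset (Fin m)) (α : Fin m →₀ ℕ) :
    D0 v T (monomial α 1) =
      ∑ j ∈ T, sg k T j * v (T.erase j) (monomial (α + Finsupp.single j 1) 1) := by
  rw [D0, LinearMap.sum_apply]
  refine Finset.sum_congr rfl fun j _ => ?_
  rw [LinearMap.smul_apply, smul_eq_mul, mT_apply]
  congr 2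
  rw [X, monomial_mul, one_mul, add_comm]

/-- exactness of the Koszul complex -/
lemma koszul (w : Finset (Fin m) → ND k m) (h0 : D0 w = 0) (h1 : w ∅ 1 = 0) :
    D0 (sK w) = w := by
  funext T
  refine (basisMonomials (Fin m) k).ext fun α => ?_
  rw [coe_basisMonomials]
  change D0 (sK w) T (monomial α 1) = w T (monomial α 1)
  rw [D0_apply_monomial]
  by_cases hU : T ∪ α.support = ∅
  · rw [Finset.union_eq_empty] at hU
    obtain ⟨rfl, h⟩ := hU
    rw [Finsupp.support_eq_empty] at h
    subst h
    rw [Finset.sum_empty]
    exact h1.symm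
  · obtain ⟨M, hM, hmax⟩ : ∃ M ∈ T ∪ α.support, ∀ j ∈ T ∪ α.support, j ≤ M := by
      obtain ⟨M, hM, h⟩ := Finset.exists_max_image (T ∪ α.support) id
        (Finset.nonempty_iff_ne_empty.2 hU)
      exact ⟨M, hM, h⟩
    have hT : ∀ j ∈ T, j ≤ M := fun j hj => hmax j (Finset.mem_union_left _ hj)
    have hα : ∀ j, α j ≠ 0 → j ≤ M := fun j hj =>
      hmax j (Finset.mem_union_right _ (Finsupp.mem_support_iff.2 hj))
    by_cases hMT : M ∈ T
    · rw [Finset.sum_eq_single M]
      · rw [sK_apply_of w (T.erase M) _ M (Finset.notMem_erase M T) (by simp)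
          (fun j hj => hT j (Finset.mem_of_mem_erase hj)), Finset.insert_erase hMT,
          add_tsub_cancel_right]
        · have : T.filter (fun l => M < l) = ∅ :=
            Finset.filter_eq_empty_iff.2 fun j hj => not_lt.2 (hT j hj)
          rw [sg, this]
          simp
        · intro j hj
          by_cases hjM : j = M
          · exact hjM.le
          · refine hα j ?_
            intro h
            apply hj
            rw [Finsupp.add_apply, h, Finsupp.single_eq_of_ne hjM, add_zero]
      · intro j hj hjM
        rw [sK_apply_zero w (T.erase j) _ M (Finset.mem_erase.2 ⟨hjM.symm, hMT⟩), mul_zero]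
        intro l hl
        by_cases hlj : l = j
        · exact hlj ▸ hT j hj
        · refine hα l ?_
          intro h
          apply hl
          rw [Finsupp.add_apply, h, Finsupp.single_eq_of_ne hlj, add_zero]
      · intro h
        exact absurd hMT h
    · have hMα : α M ≠ 0 := by
        rcases Finset.mem_union.1 hM with h | h
        · exact absurd h hMT
        · exact Finsupp.mem_support_iff.1 h
      have h2 : ∀ j ∈ T, sg k T j * sK w (T.erase j) (monomial (α + Finsupp.single j 1) 1) =
          sg k T j * w (insert M (T.erase j))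
            (monomial (α + Finsupp.single j 1 - Finsupp.single M 1) 1) := by
        intro j hj
        rw [sK_apply_of w (T.erase j) _ M (fun h => hMT (Finset.mem_of_mem_erase h))
          (by
            rw [Finsupp.add_apply]
            omega)
          (fun l hl => hT l (Finset.mem_of_mem_erase hl))]
        intro l hl
        by_cases hlj : l = j
        · exact hlj ▸ hT j hj
        · refine hα l ?_
          intro h
          apply hl
          rw [Finsupp.add_apply, h, Finsupp.single_eq_of_ne hlj, add_zero]
      rw [Finset.sum_congr rfl h2]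
      have h3 : D0 w (insert M T) (monomial (α - Finsupp.single M 1) 1) = 0 := by
        rw [h0]
        rfl
      rw [D0_apply_monomial, Finset.sum_insert hMT] at h3
      have h4 : α - Finsupp.single M 1 + Finsupp.single M 1 = α := by
        ext l
        rw [Finsupp.add_apply, Finsupp.tsub_apply]
        by_cases hl : l = M
        · subst hl
          rw [Finsupp.single_eq_same]
          omega
        · rw [Finsupp.single_eq_of_ne hl]
          omega
      have h5 : sg k (insert M T) M = 1 := by
        have : (insert M T).filter (fun l => M < l) = ∅ :=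
          Finset.filter_eq_empty_iff.2 fun j hj => by
            rcases Finset.mem_insert.1 hj with rfl | hj
            · exact lt_irrefl _
            · exact not_lt.2 (hT j hj)
        rw [sg, this]
        simp
      rw [Finset.erase_insert hMT, h4, h5, one_mul] at h3
      have h6 : ∀ j ∈ T, sg k (insert M T) j * w ((insert M T).erase j)
          (monomial (α - Finsupp.single M 1 + Finsupp.single j 1) 1) =
          -(sg k T j * w (insert M (T.erase j))
            (monomial (α + Finsupp.single j 1 - Finsupp.single M 1) 1)) := by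
        intro j hj
        have hjM : j ≠ M := fun h => hMT (h ▸ hj)
        have hlt : j < M := lt_of_le_of_ne (hT j hj) hjM
        have h7 : (insert M T).filter (fun l => j < l) = insert M (T.filter (fun l => j < l)) := by
          rw [Finset.filter_insert, if_pos hlt]
        have h8 : M ∉ T.filter (fun l => j < l) := fun h => hMT (Finset.mem_of_mem_filter _ h)
        have h9 : α - Finsupp.single M 1 + Finsupp.single j 1 =
            α + Finsupp.single j 1 - Finsupp.single M 1 := by
          ext l
          rw [Finsupp.add_apply, Finsupp.tsub_apply, Finsupp.tsub_apply, Finsupp.add_apply]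
          by_cases hl : l = M
          · subst hl
            rw [Finsupp.single_eq_same, Finsupp.single_eq_of_ne (Ne.symm hjM)]
            omega
          · rw [Finsupp.single_eq_of_ne hl]
            omega
        rw [sg, h7, Finset.card_insert_of_notMem h8, pow_succ, h9, sg,
          Finset.erase_insert_of_ne (Ne.symm hjM)]
        ring
      rw [Finset.sum_congr rfl h6, Finset.sum_neg_distrib] at h3
      linear_combination -h3

end

end Pool.Agent.U256.SV.KOS
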