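import Mathlib
import Pool.Agent.U450.SV.Stm
import Pool.Agent.U256.SV.KB

/-!
# Project SV, package KOS, part C: the relative Koszul complex
-/

set_option autoImplicit false

universe u

namespace Pool.Agent.U256.SV.KOS

open Pool.Agent.U450.SV MvPolynomial

section

variable {k g0 g1 : Type u} [Field k] [AddCommGroup g0] [Module k g0]
  [AddCommGroup g1] [Module k g1] {m : ℕ}
  {L : LieSuper k g0 g1} {y : Module.Basis (Fin m) k g1}
  {ρ : SMod L (Finset (Fin m) → ND k m)}

lemma ind_single (hρ : IsInd L m y (n0 L y) ρ) {M : Type u} [AddCommGroup M] [Module k M]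
    (Φ Ψ : (Finset (Fin m) → ND k m) →ₗ[k] M) (t : Fin m → M → M)
    (h0 : ∀ n, Φ (Pi.single ∅ n) = Ψ (Pi.single ∅ n))
    (h1 : ∀ i v, Φ (ρ.r1 (y i) v) = t i (Φ v)) (h2 : ∀ i v, Ψ (ρ.r1 (y i) v) = t i (Ψ v)) :
    Φ = Ψ := by
  refine LinearMap.pi_ext' fun S => LinearMap.ext fun n => ?_
  change Φ (Pi.single S n) = Ψ (Pi.single S n)
  induction S using Finset.induction_on_min with
  | empty => exact h0 n
  | insert i S hi ih =>
    rw [← hρ.2.2.1 i S n hi, h1, h2, ih]

lemma r1_sum (x : g1) (v : Finset (Fin m) → ND k m) :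
    ρ.r1 x v = ∑ i, y.repr x i • ρ.r1 (y i) v := by
  conv_lhs => rw [← y.sum_repr x]
  simp only [map_sum, map_smul, LinearMap.sum_apply, LinearMap.smul_apply]

lemma r1_r1 (h2 : (2 : k) ≠ 0) (x : g1) (hx : L.b11 x x = 0) (v : Finset (Fin m) → ND k m) :
    ρ.r1 x (ρ.r1 x v) = 0 := by
  have h := LinearMap.congr_fun (ρ.h11 x x) v
  rw [hx, map_zero] at h
  simp only [LinearMap.add_apply, Module.End.mul_apply, LinearMap.zero_apply] at h
  have h3 : (2 : k) • (ρ.r1 x (ρ.r1 x v)) = 0 := by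
    rw [two_smul]
    exact h.symm
  exact (smul_eq_zero.1 h3).resolve_left h2

lemma σ_single (hρ : IsInd L m y (n0 L y) ρ) (n : ND k m) :
    ρ.σ (Pi.single ∅ n) = Pi.single ∅ n := by
  funext T
  rw [hρ.1]
  by_cases hT : T = ∅
  · subst hT
    simp
  · rw [Pi.single_eq_of_ne hT, smul_zero]

/-- existence of the equivariant differential -/
lemma exists_DD (hUNI : S_UNI.{u}) (h2 : (2 : k) ≠ 0) (hρ : IsInd L m y (n0 L y) ρ) :
    ∃ DD : (Finset (Fin m) → ND k m) →ₗ[k] (Finset (Fin m) → ND k m),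
      (∀ φ, DD (Pi.single ∅ φ) = ∑ i, ρ.r1 (y i) (Pi.single ∅ (mT (X i) φ))) ∧
      (∀ a v, DD (ρ.r0 a v) = ρ.r0 a (DD v)) ∧ (∀ x v, DD (ρ.r1 x v) = ρ.r1 x (DD v)) := by
  obtain ⟨DD, ⟨hD1, hD2, hD3⟩, _⟩ := hUNI k g0 g1 (ND k m) h2 L m y (n0 L y) ρ hρ
    (Finset (Fin m) → ND k m) ρ.r0 ρ.r1 ρ.h00 ρ.h01 ρ.h11
    (∑ i, (ρ.r1 (y i)) ∘ₗ (LinearMap.single k (fun _ : Finset (Fin m) => ND k m) ∅) ∘ₗ (mT (X i)))
    (by
      intro a φ
      simp only [LinearMap.sum_apply, LinearMap.comp_apply, LinearMap.single_apply]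
      rw [map_sum]
      have e1 : ∀ i, ρ.r0 a (ρ.r1 (y i) (Pi.single ∅ (mT (X i) φ))) =
          (∑ j, y.repr (L.b01 a (y i)) j • ρ.r1 (y j) (Pi.single ∅ (mT (X i) φ))) +
          ρ.r1 (y i) (Pi.single ∅ (n0 L y a (mT (X i) φ))) := by
        intro i
        have h := LinearMap.congr_fun (ρ.h01 a (y i)) (Pi.single ∅ (mT (X i) φ))
        simp only [LinearMap.sub_apply, Module.End.mul_apply] at h
        rw [hρ.2.1] at h
        rw [← r1_sum (L.b01 a (y i)), h]
        abel
      have e2 : ∀ i, ρ.r1 (y i) (Pi.single ∅ (mT (X i) (n0 L y a φ))) =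
          ρ.r1 (y i) (Pi.single ∅ (n0 L y a (mT (X i) φ))) +
          ∑ l, y.repr (L.b01 a (y l)) i • ρ.r1 (y i) (Pi.single ∅ (mT (X l) φ)) := by
        intro i
        have e3 : mT (X i) (n0 L y a φ) = n0 L y a (mT (X i) φ) +
            ∑ l, y.repr (L.b01 a (y l)) i • mT (X l) φ := by
          rw [n0_mT, sub_eq_add_neg]
          congr 1
          refine LinearMap.ext fun P => ?_
          rw [LinearMap.neg_apply, mT_apply, der_X, neg_mul, map_neg, neg_neg, Finset.sum_mul,
            map_sum, LinearMap.sum_apply]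
          refine Finset.sum_congr rfl fun l _ => ?_
          rw [LinearMap.smul_apply, mT_apply, ← smul_eq_C_mul, smul_mul_assoc, map_smul]
        rw [e3, Pi.single_add, map_add]
        congr 1
        have e4 : (Pi.single ∅ (∑ l, y.repr (L.b01 a (y l)) i • mT (X l) φ) :
            Finset (Fin m) → ND k m) =
            ∑ l, y.repr (L.b01 a (y l)) i • (Pi.single ∅ (mT (X l) φ)) := by
          change LinearMap.single k (fun _ : Finset (Fin m) => ND k m) ∅ _ = _
          rw [map_sum]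
          refine Finset.sum_congr rfl fun l _ => ?_
          rw [map_smul]
          rfl
        rw [e4, map_sum]
        refine Finset.sum_congr rfl fun l _ => ?_
        rw [map_smul]
      rw [Finset.sum_congr rfl fun i _ => e1 i, Finset.sum_congr rfl fun i _ => e2 i,
        Finset.sum_add_distrib, Finset.sum_add_distrib, add_comm]
      congr 1
      rw [Finset.sum_comm])
  refine ⟨DD, fun φ => ?_, hD2, hD3⟩
  rw [hD1]
  simp only [LinearMap.sum_apply, LinearMap.comp_apply, LinearMap.single_apply]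

variable {DD : (Finset (Fin m) → ND k m) →ₗ[k] (Finset (Fin m) → ND k m)}

lemma lie_sum [Infinite k] (L : LieSuper k g0 g1) (y : Module.Basis (Fin m) k g1)
    (P : MvPolynomial (Fin m) k) :
    ∑ i, ∑ j, X i * (X j * der L y (L.b11 (y i) (y j)) P) = 0 := by
  have h : (∑ i, ∑ j, (X i * X j : MvPolynomial (Fin m) k) • der L y (L.b11 (y i) (y j))) = 0 := by
    refine derivation_ext fun l => ?_
    have e1 : ∀ Q : MvPolynomial (Fin m) k,
        (∑ i, ∑ j, (X i * X j : MvPolynomial (Fin m) k) • der L y (L.b11 (y i) (y j))) Q =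
        ∑ i, ∑ j, X i * X j * der L y (L.b11 (y i) (y j)) Q := by
      intro Q
      simp only [← Derivation.coeFnAddMonoidHom_apply, map_sum, Finset.sum_apply]
      rfl
    rw [e1, Derivation.zero_apply]
    refine MvPolynomial.funext fun x => ?_
    set z : g1 := ∑ i, x i • y i with hz
    have hzr : (fun i => y.repr z i) = x := by
      rw [hz]
      exact y.repr_sum_self x
    simp only [map_sum, map_mul, eval_X, map_zero]
    have e2 : ∀ i j, eval x (der L y (L.b11 (y i) (y j)) (X l)) =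
        - y.coord l (L.b01 (L.b11 (y i) (y j)) z) := by
      intro i j
      rw [der_X', map_neg, ← hzr, eval_lin]
      rfl
    have e3 : ∑ i, ∑ j, x i * x j * eval x (der L y (L.b11 (y i) (y j)) (X l)) =
        - y.coord l (L.b01 (L.b11 z z) z) := by
      simp only [e2]
      have e4 : L.b11 z z = ∑ i, ∑ j, (x i * x j) • L.b11 (y i) (y j) := by
        conv_lhs => rw [hz]
        simp only [map_sum, map_smul, LinearMap.sum_apply, LinearMap.smul_apply, Finset.smul_sum,
          smul_smul]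
        rw [Finset.sum_comm]
        refine Finset.sum_congr rfl fun i _ => Finset.sum_congr rfl fun j _ => ?_
        rw [mul_comm]
      rw [e4]
      simp only [map_sum, map_smul, LinearMap.sum_apply, LinearMap.smul_apply, smul_eq_mul,
        mul_neg, Finset.sum_neg_distrib]
    rw [e3, L.jac111, map_zero, neg_zero]
  have h1 := DFunLike.congr_fun h P
  rw [Derivation.zero_apply] at h1
  rw [← h1]
  simp only [← Derivation.coeFnAddMonoidHom_apply, map_sum, Finset.sum_apply]
  refine Finset.sum_congr rfl fun i _ => Finset.sum_congr rfl fun j _ => ?_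
  rw [← mul_assoc]
  rfl

lemma DD_DD [Infinite k] (h2 : (2 : k) ≠ 0) (hρ : IsInd L m y (n0 L y) ρ)
    (hD1 : ∀ φ, DD (Pi.single ∅ φ) = ∑ i, ρ.r1 (y i) (Pi.single ∅ (mT (X i) φ)))
    (hD3 : ∀ x v, DD (ρ.r1 x v) = ρ.r1 x (DD v)) (v : Finset (Fin m) → ND k m) :
    DD (DD v) = 0 := by
  have h : DD ∘ₗ DD = 0 := by
    refine ind_single hρ _ _ (fun i w => ρ.r1 (y i) w) ?_ ?_ ?_
    · intro φ
      rw [LinearMap.comp_apply, hD1, map_sum, LinearMap.zero_apply]
      have e1 : ∀ i, DD (ρ.r1 (y i) (Pi.single ∅ (mT (X i) φ))) =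
          ∑ j, ρ.r1 (y i) (ρ.r1 (y j) (Pi.single ∅ (mT (X j) (mT (X i) φ)))) := by
        intro i
        rw [hD3, hD1, map_sum]
      simp only [e1]
      set A : Finset (Fin m) → ND k m :=
        ∑ i, ∑ j, ρ.r1 (y i) (ρ.r1 (y j) (Pi.single ∅ (mT (X j) (mT (X i) φ)))) with hA
      have hmm : ∀ i j, mT (X j) (mT (X i) φ) = mT (X i) (mT (X j) φ) := by
        intro i j
        refine LinearMap.ext fun P => ?_
        simp only [mT_apply]
        rw [mul_left_comm]
      have hA' : A = ∑ i, ∑ j, ρ.r1 (y j) (ρ.r1 (y i) (Pi.single ∅ (mT (X j) (mT (X i) φ)))) := by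
        rw [hA, Finset.sum_comm]
        refine Finset.sum_congr rfl fun i _ => Finset.sum_congr rfl fun j _ => ?_
        rw [hmm]
      have h3 : A + A = 0 := by
        conv_lhs => rw [show A + A = A + ∑ i, ∑ j, ρ.r1 (y j) (ρ.r1 (y i)
          (Pi.single ∅ (mT (X j) (mT (X i) φ)))) by rw [← hA']]
        rw [hA, ← Finset.sum_add_distrib]
        have e5 : ∀ i, ((∑ j, ρ.r1 (y i) (ρ.r1 (y j) (Pi.single ∅ (mT (X j) (mT (X i) φ))))) +
            ∑ j, ρ.r1 (y j) (ρ.r1 (y i) (Pi.single ∅ (mT (X j) (mT (X i) φ))))) =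
            ∑ j, LinearMap.single k (fun _ : Finset (Fin m) => ND k m) ∅
              (n0 L y (L.b11 (y i) (y j)) (mT (X j) (mT (X i) φ))) := by
          intro i
          rw [← Finset.sum_add_distrib]
          refine Finset.sum_congr rfl fun j _ => ?_
          have h4 := LinearMap.congr_fun (ρ.h11 (y i) (y j))
            (Pi.single ∅ (mT (X j) (mT (X i) φ)))
          simp only [LinearMap.add_apply, Module.End.mul_apply] at h4
          rw [← h4, hρ.2.1]
          rfl
        simp only [e5]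
        simp only [← map_sum]
        have e6 : (∑ i, ∑ j, n0 L y (L.b11 (y i) (y j)) (mT (X j) (mT (X i) φ))) = 0 := by
          refine LinearMap.ext fun P => ?_
          simp only [LinearMap.sum_apply, n0_apply, mT_apply, Finset.sum_neg_distrib]
          simp only [← map_sum]
          rw [lie_sum]
          simp
        rw [e6, map_zero]
      have h5 : (2 : k) • A = 0 := by
        rw [two_smul]
        exact h3
      exact (smul_eq_zero.1 h5).resolve_left h2
    · intro i v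
      rw [LinearMap.comp_apply, hD3, hD3]
      rfl
    · intro i v
      simp
  exact LinearMap.congr_fun h v

lemma DD_σ (hρ : IsInd L m y (n0 L y) ρ)
    (hD1 : ∀ φ, DD (Pi.single ∅ φ) = ∑ i, ρ.r1 (y i) (Pi.single ∅ (mT (X i) φ)))
    (hD3 : ∀ x v, DD (ρ.r1 x v) = ρ.r1 x (DD v)) (v : Finset (Fin m) → ND k m) :
    DD (ρ.σ v) = - ρ.σ (DD v) := by
  have hs : ∀ x v, ρ.σ (ρ.r1 x v) = - ρ.r1 x (ρ.σ v) := by
    intro x v
    exact LinearMap.congr_fun (ρ.σ1 x) v
  have h : DD ∘ₗ ρ.σ = - (ρ.σ ∘ₗ DD) := by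
    refine ind_single hρ _ _ (fun i w => - ρ.r1 (y i) w) ?_ ?_ ?_
    · intro φ
      rw [LinearMap.comp_apply, σ_single hρ, LinearMap.neg_apply, LinearMap.comp_apply, hD1,
        map_sum, ← Finset.sum_neg_distrib]
      refine Finset.sum_congr rfl fun i _ => ?_
      rw [hs, neg_neg, σ_single hρ]
    · intro i v
      rw [LinearMap.comp_apply, hs, map_neg, hD3]
      rfl
    · intro i v
      rw [LinearMap.neg_apply, LinearMap.comp_apply, hD3, hs]
      simp
  exact LinearMap.congr_fun h v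

/-- invariant polynomials give invariant functionals -/
lemma inv_functional (hUNI : S_UNI.{u}) (h2 : (2 : k) ≠ 0) (hρ : IsInd L m y (n0 L y) ρ)
    (Q : MvPolynomial (Fin m) k) (hQ : ∀ a, der L y a Q = 0) :
    (∀ a v, (ρ.r0 a v) ∅ Q = 0) ∧ (∀ x v, (ρ.r1 x v) ∅ Q = 0) := by
  obtain ⟨F, ⟨hF1, hF2, hF3⟩, _⟩ := hUNI k g0 g1 (ND k m) h2 L m y (n0 L y) ρ hρ
    k 0 0 (by simp) (by simp) (by simp) (LinearMap.applyₗ Q)
    (by
      intro a φ
      simp only [LinearMap.applyₗ_apply_apply, LinearMap.zero_apply]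
      rw [n0_apply, hQ, map_zero, neg_zero])
  have hF : F = (LinearMap.applyₗ Q) ∘ₗ (LinearMap.proj (R := k)
      (φ := fun _ : Finset (Fin m) => ND k m) ∅) := by
    refine LinearMap.pi_ext' fun S => LinearMap.ext fun n => ?_
    change F (Pi.single S n) = (Pi.single S n : Finset (Fin m) → ND k m) ∅ Q
    induction S using Finset.induction_on_min with
    | empty =>
      rw [hF1, Pi.single_eq_same]
      rfl
    | insert i S hi ih =>
      rw [← hρ.2.2.1 i S n hi, hF3, hρ.2.2.1 i S n hi, Pi.single_eq_of_ne]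
      · simp
      · exact (Finset.insert_ne_empty i S).symm
  constructor
  · intro a v
    have h := hF2 a v
    rw [hF] at h
    simpa using h
  · intro x v
    have h := hF3 x v
    rw [hF] at h
    simpa using h

lemma inv_DD (hUNI : S_UNI.{u}) (h2 : (2 : k) ≠ 0) (hρ : IsInd L m y (n0 L y) ρ)
    (hD1 : ∀ φ, DD (Pi.single ∅ φ) = ∑ i, ρ.r1 (y i) (Pi.single ∅ (mT (X i) φ)))
    (hD3 : ∀ x v, DD (ρ.r1 x v) = ρ.r1 x (DD v))
    (Q : MvPolynomial (Fin m) k) (hQ : ∀ a, der L y a Q = 0) (v : Finset (Fin m) → ND k m) :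
    (DD v) ∅ Q = 0 := by
  obtain ⟨_, h1⟩ := inv_functional hUNI h2 hρ Q hQ
  have h : ((LinearMap.applyₗ Q) ∘ₗ (LinearMap.proj (R := k)
      (φ := fun _ : Finset (Fin m) => ND k m) ∅)) ∘ₗ DD = 0 := by
    refine ind_single hρ _ _ (fun i w => 0) ?_ ?_ ?_
    · intro φ
      simp only [LinearMap.comp_apply]
      rw [hD1, map_sum, map_sum]
      simp [h1]
    · intro i v
      simp only [LinearMap.comp_apply]
      rw [hD3]
      simp [h1]
    · intro i v
      simp
  have := LinearMap.congr_fun h v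
  simpa using this

/-- projection to the degree `n` part -/
noncomputable def PI (k : Type u) [Field k] (m n : ℕ) :
    (Finset (Fin m) → ND k m) →ₗ[k] (Finset (Fin m) → ND k m) :=
  LinearMap.pi fun T => (pn n) ∘ₗ LinearMap.proj T

lemma PI_apply (n : ℕ) (v : Finset (Fin m) → ND k m) (T : Finset (Fin m)) :
    PI k m n v T = pn n (v T) := rfl

lemma PI_single (n : ℕ) (S : Finset (Fin m)) (φ : ND k m) :
    PI k m n (Pi.single S φ) = Pi.single S (pn n φ) := by
  funext T
  rw [PI_apply]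
  by_cases hT : T = S
  · subst hT
    simp
  · rw [Pi.single_eq_of_ne hT, Pi.single_eq_of_ne hT, map_zero]

lemma PI_PI (n : ℕ) (v : Finset (Fin m) → ND k m) : PI k m n (PI k m n v) = PI k m n v := by
  funext T
  rw [PI_apply, PI_apply, pn_pn]

lemma PI_equiv (hUNI : S_UNI.{u}) (h2 : (2 : k) ≠ 0) (hρ : IsInd L m y (n0 L y) ρ) (n : ℕ) :
    (∀ a v, PI k m n (ρ.r0 a v) = ρ.r0 a (PI k m n v)) ∧
    (∀ x v, PI k m n (ρ.r1 x v) = ρ.r1 x (PI k m n v)) := by
  obtain ⟨F, ⟨hF1, hF2, hF3⟩, _⟩ := hUNI k g0 g1 (ND k m) h2 L m y (n0 L y) ρ hρ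
    (Finset (Fin m) → ND k m) ρ.r0 ρ.r1 ρ.h00 ρ.h01 ρ.h11
    ((LinearMap.single k (fun _ : Finset (Fin m) => ND k m) ∅) ∘ₗ (pn n))
    (by
      intro a φ
      simp only [LinearMap.comp_apply, LinearMap.single_apply]
      rw [hρ.2.1, n0_pn])
  have hF : F = PI k m n := by
    refine LinearMap.pi_ext' fun S => LinearMap.ext fun φ => ?_
    change F (Pi.single S φ) = PI k m n (Pi.single S φ)
    rw [PI_single]
    induction S using Finset.induction_on_min with
    | empty =>
      rw [hF1]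
      rfl
    | insert i S hi ih =>
      rw [← hρ.2.2.1 i S φ hi, hF3, ih, hρ.2.2.1 i S _ hi]
  rw [← hF]
  exact ⟨hF2, hF3⟩

lemma DD_PI (hUNI : S_UNI.{u}) (h2 : (2 : k) ≠ 0) (hρ : IsInd L m y (n0 L y) ρ)
    (hD1 : ∀ φ, DD (Pi.single ∅ φ) = ∑ i, ρ.r1 (y i) (Pi.single ∅ (mT (X i) φ)))
    (hD3 : ∀ x v, DD (ρ.r1 x v) = ρ.r1 x (DD v)) (n : ℕ) (v : Finset (Fin m) → ND k m) :
    DD (PI k m (n + 1) v) = PI k m n (DD v) := by
  have h : DD ∘ₗ PI k m (n + 1) = PI k m n ∘ₗ DD := by
    refine ind_single hρ _ _ (fun i w => ρ.r1 (y i) w) ?_ ?_ ?_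
    · intro φ
      rw [LinearMap.comp_apply, LinearMap.comp_apply, PI_single, hD1, hD1, map_sum]
      refine Finset.sum_congr rfl fun i _ => ?_
      rw [(PI_equiv hUNI h2 hρ n).2, PI_single, pn_mT]
    · intro i v
      rw [LinearMap.comp_apply, (PI_equiv hUNI h2 hρ (n + 1)).2, hD3]
      rfl
    · intro i v
      rw [LinearMap.comp_apply, hD3, (PI_equiv hUNI h2 hρ n).2]
      rfl
  exact LinearMap.congr_fun h v

end

end Pool.Agent.U256.SV.KOS
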