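import Mathlib
import Pool.Agent.U450.SV.Stm
import Pool.Agent.U256.SV.KC

/-!
# Project SV, package KOS, part D: exactness and the relative Carlson module
-/

set_option autoImplicit false

universe u

namespace Pool.Agent.U256.SV.KOS

open Pool.Agent.U450.SV MvPolynomial

section

variable {k g0 g1 : Type u} [Field k] [AddCommGroup g0] [Module k g0]
  [AddCommGroup g1] [Module k g1] {m : ℕ}
  {L : LieSuper k g0 g1} {y : Module.Basis (Fin m) k g1}
  {ρ : SMod L (Finset (Fin m) → ND k m)}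
  {DD : (Finset (Fin m) → ND k m) →ₗ[k] (Finset (Fin m) → ND k m)}

lemma filt_mono {d e : ℕ} (h : d ≤ e) {v : Finset (Fin m) → ND k m}
    (hv : v ∈ filt k m (ND k m) d) : v ∈ filt k m (ND k m) e :=
  fun T hT => hv T (lt_of_le_of_lt h hT)

lemma single_mem_filt (S : Finset (Fin m)) (n : ND k m) :
    (Pi.single S n : Finset (Fin m) → ND k m) ∈ filt k m (ND k m) S.card := by
  intro T hT
  rw [Pi.single_eq_of_ne]
  rintro rfl
  exact lt_irrefl _ hT

lemma eop_filt (i : Fin m) {d : ℕ} {v : Finset (Fin m) → ND k m}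
    (hv : v ∈ filt k m (ND k m) d) : eop k m (ND k m) i v ∈ filt k m (ND k m) (d + 1) := by
  intro T hT
  change (if i ∈ T then ((-1 : k) ^ (T.filter (fun j => j < i)).card) • v (T.erase i) else 0) = 0
  split_ifs with h
  · rw [hv, smul_zero]
    rw [Finset.card_erase_of_mem h]
    omega
  · rfl

lemma D0_filt {d : ℕ} {v : Finset (Fin m) → ND k m}
    (hv : v ∈ filt k m (ND k m) d) : D0 v ∈ filt k m (ND k m) (d + 1) := by
  intro T hT
  refine Finset.sum_eq_zero fun j hj => ?_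
  rw [hv, map_zero, smul_zero]
  rw [Finset.card_erase_of_mem hj]
  omega

lemma r1_filt (hρ : IsInd L m y (n0 L y) ρ) (i : Fin m) {d : ℕ} {v : Finset (Fin m) → ND k m}
    (hv : v ∈ filt k m (ND k m) d) : ρ.r1 (y i) v ∈ filt k m (ND k m) (d + 1) := by
  have h1 := filt_mono (Nat.le_succ d) (hρ.2.2.2.1 i d v hv)
  have h2 := eop_filt i hv
  have := Submodule.add_mem _ h1 h2
  rwa [sub_add_cancel] at this

/-- the leading term of the differential -/
lemma DD_single_lead (hρ : IsInd L m y (n0 L y) ρ)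
    (hD1 : ∀ φ, DD (Pi.single ∅ φ) = ∑ i, ρ.r1 (y i) (Pi.single ∅ (mT (X i) φ)))
    (hD3 : ∀ x v, DD (ρ.r1 x v) = ρ.r1 x (DD v)) (S : Finset (Fin m)) (φ : ND k m) :
    DD (Pi.single S φ) - D0 (Pi.single S φ) ∈ filt k m (ND k m) S.card := by
  induction S using Finset.induction_on_min with
  | empty =>
    have h : DD (Pi.single ∅ φ) = D0 (Pi.single ∅ φ) := by
      rw [hD1]
      have e1 : ∀ i, ρ.r1 (y i) (Pi.single ∅ (mT (X i) φ)) = Pi.single {i} (mT (X i) φ) := by
        intro i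
        have := hρ.2.2.1 i ∅ (mT (X i) φ) (by simp)
        rw [this]
        rfl
      simp only [e1]
      funext T
      rw [Finset.sum_apply, D0]
      by_cases hT : ∃ l, T = {l}
      · obtain ⟨l, rfl⟩ := hT
        rw [Finset.sum_singleton, Finset.sum_eq_single l]
        · rw [Pi.single_eq_same, Finset.erase_singleton, Pi.single_eq_same, sg]
          have : ({l} : Finset (Fin m)).filter (fun j => l < j) = ∅ := by
            refine Finset.filter_eq_empty_iff.2 fun j hj => ?_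
            rw [Finset.mem_singleton.1 hj]
            exact lt_irrefl _
          rw [this]
          simp
        · intro j _ hj
          rw [Pi.single_eq_of_ne]
          intro h
          exact hj (Finset.singleton_injective h).symm
        · intro h
          exact absurd (Finset.mem_univ l) h
      · rw [Finset.sum_eq_zero, Finset.sum_eq_zero]
        · intro j hj
          rw [Pi.single_eq_of_ne, map_zero, smul_zero]
          intro h
          apply hT
          refine ⟨j, ?_⟩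
          rw [← Finset.insert_erase hj, h]
          rfl
        · intro j _
          rw [Pi.single_eq_of_ne]
          intro h
          exact hT ⟨j, h⟩
    rw [h, sub_self]
    exact Submodule.zero_mem _
  | insert i S hi ih =>
    have hiS : i ∉ S := fun h' => lt_irrefl _ (hi i h')
    rw [Finset.card_insert_of_notMem hiS]
    have h1 : DD (Pi.single (insert i S) φ) = ρ.r1 (y i) (DD (Pi.single S φ)) := by
      rw [← hρ.2.2.1 i S φ hi, hD3]
    have h2 : D0 (Pi.single (insert i S) φ) = eop k m (ND k m) i (D0 (Pi.single S φ)) := by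
      rw [eop_D0, eop_single i S φ hi]
    rw [h1, h2]
    have h3 : D0 (Pi.single S φ) ∈ filt k m (ND k m) (S.card + 1) :=
      D0_filt (single_mem_filt S φ)
    have h4 := hρ.2.2.2.1 i (S.card + 1) _ h3
    have h5 := r1_filt hρ i ih
    rw [map_sub] at h5
    have := Submodule.add_mem _ h5 h4
    rwa [sub_add_sub_cancel] at this

lemma DD_lead (hρ : IsInd L m y (n0 L y) ρ)
    (hD1 : ∀ φ, DD (Pi.single ∅ φ) = ∑ i, ρ.r1 (y i) (Pi.single ∅ (mT (X i) φ)))
    (hD3 : ∀ x v, DD (ρ.r1 x v) = ρ.r1 x (DD v)) {d : ℕ} {v : Finset (Fin m) → ND k m}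
    (hv : v ∈ filt k m (ND k m) d) : DD v - D0 v ∈ filt k m (ND k m) d := by
  have h1 : DD v - D0 v = ∑ S, (DD (Pi.single S (v S)) - D0 (Pi.single S (v S))) := by
    rw [Finset.sum_sub_distrib]
    congr 1
    · rw [← map_sum, Finset.univ_sum_single]
    · change D0L v = ∑ S, D0L (Pi.single S (v S))
      rw [← map_sum, Finset.univ_sum_single]
  rw [h1]
  refine Submodule.sum_mem _ fun S _ => ?_
  by_cases hS : d < S.card
  · rw [hv S hS]
    change DD (Pi.single S 0) - D0L (Pi.single S 0) ∈ _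
    rw [Pi.single_zero, map_zero, map_zero, sub_zero]
    exact Submodule.zero_mem _
  · exact filt_mono (not_lt.1 hS) (DD_single_lead hρ hD1 hD3 S (v S))

lemma der_one (a : g0) : der L y a 1 = 0 := Derivation.map_one_eq_zero _

lemma sK_of_eq {v : Finset (Fin m) → ND k m} (T : Finset (Fin m))
    (h : ∀ i ∉ T, v (insert i T) = 0) : sK v T = 0 := by
  refine (basisMonomials (Fin m) k).ext fun α => ?_
  rw [coe_basisMonomials]
  change sK v T (monomial α 1) = 0
  rw [sK_apply]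
  refine Finset.sum_eq_zero fun i _ => ?_
  split_ifs with hi
  · rw [h i hi.1]
    rfl
  · rfl

lemma exact_aux [Infinite k] (hUNI : S_UNI.{u}) (h2 : (2 : k) ≠ 0)
    (hρ : IsInd L m y (n0 L y) ρ)
    (hD1 : ∀ φ, DD (Pi.single ∅ φ) = ∑ i, ρ.r1 (y i) (Pi.single ∅ (mT (X i) φ)))
    (hD3 : ∀ x v, DD (ρ.r1 x v) = ρ.r1 x (DD v)) (d : ℕ) :
    ∀ z ∈ filt k m (ND k m) d, DD z = 0 → z ∅ 1 = 0 → ∃ t, z = DD t := by
  induction d with
  | zero =>
    intro z hz h0 h1
    have e1 : D0 z = 0 := by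
      funext T
      by_cases hT : T = ∅
      · subst hT
        rfl
      · have h3 := DD_lead hρ hD1 hD3 hz T (Finset.card_pos.2 (Finset.nonempty_iff_ne_empty.2 hT))
        rw [h0] at h3
        simpa using h3
    have e2 := koszul z e1 h1
    have e3 : sK z = 0 := by
      funext T
      refine sK_of_eq T fun i hi => hz _ ?_
      rw [Finset.card_insert_of_notMem hi]
      omega
    refine ⟨0, ?_⟩
    rw [map_zero, ← e2, e3]
    change D0L 0 = 0
    exact map_zero _
  | succ d ih =>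
    intro z hz h0 h1
    set w : Finset (Fin m) → ND k m := fun T => if T.card = d + 1 then z T else 0 with hw
    have e1 : D0 w = 0 := by
      funext T
      by_cases hT : T.card = d + 2
      · have h3 := DD_lead hρ hD1 hD3 hz T (by omega)
        rw [h0] at h3
        have h4 : D0 z T = 0 := by simpa using h3
        rw [Pi.zero_apply, ← h4]
        refine Finset.sum_congr rfl fun j hj => ?_
        rw [hw]
        simp only
        rw [if_pos]
        rw [Finset.card_erase_of_mem hj]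
        omega
      · refine Finset.sum_eq_zero fun j hj => ?_
        rw [hw]
        simp only
        rw [if_neg, map_zero, smul_zero]
        rw [Finset.card_erase_of_mem hj]
        have := Finset.card_pos.2 ⟨j, hj⟩
        omega
    have e2 := koszul w e1 (by simp [hw])
    have e3 : sK w ∈ filt k m (ND k m) d := by
      intro T hT
      refine sK_of_eq T fun i hi => ?_
      rw [hw]
      simp only
      rw [if_neg]
      rw [Finset.card_insert_of_notMem hi]
      omega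
    have e4 := DD_lead hρ hD1 hD3 e3
    have e5 : z - DD (sK w) ∈ filt k m (ND k m) d := by
      intro T hT
      have h5 := e4 T hT
      rw [e2, Pi.sub_apply, sub_eq_zero] at h5
      rw [Pi.sub_apply, h5, hw]
      simp only
      split_ifs with h6
      · exact sub_self _
      · rw [hz T (by omega), sub_zero]
    obtain ⟨t, ht⟩ := ih _ e5 (by rw [map_sub, h0, DD_DD h2 hρ hD1 hD3, sub_zero]) (by
      rw [Pi.sub_apply, LinearMap.sub_apply, h1, inv_DD hUNI h2 hρ hD1 hD3 1 der_one, sub_zero])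
    refine ⟨t + sK w, ?_⟩
    rw [map_add, ← ht, sub_add_cancel]

lemma exact_all [Infinite k] (hUNI : S_UNI.{u}) (h2 : (2 : k) ≠ 0)
    (hρ : IsInd L m y (n0 L y) ρ)
    (hD1 : ∀ φ, DD (Pi.single ∅ φ) = ∑ i, ρ.r1 (y i) (Pi.single ∅ (mT (X i) φ)))
    (hD3 : ∀ x v, DD (ρ.r1 x v) = ρ.r1 x (DD v)) (z : Finset (Fin m) → ND k m)
    (h0 : DD z = 0) (h1 : z ∅ 1 = 0) : ∃ t, z = DD t := by
  refine exact_aux hUNI h2 hρ hD1 hD3 m z ?_ h0 h1
  intro T hT
  have := Finset.card_le_univ T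
  rw [Fintype.card_fin] at this
  omega

/-- exactness in each degree -/
lemma exact_deg [Infinite k] (hUNI : S_UNI.{u}) (h2 : (2 : k) ≠ 0)
    (hρ : IsInd L m y (n0 L y) ρ)
    (hD1 : ∀ φ, DD (Pi.single ∅ φ) = ∑ i, ρ.r1 (y i) (Pi.single ∅ (mT (X i) φ)))
    (hD3 : ∀ x v, DD (ρ.r1 x v) = ρ.r1 x (DD v)) (n : ℕ) (z : Finset (Fin m) → ND k m)
    (hz : PI k m n z = z) (h0 : DD z = 0) (h1 : z ∅ 1 = 0) :
    ∃ t, PI k m (n + 1) t = t ∧ z = DD t := by
  obtain ⟨t, ht⟩ := exact_all hUNI h2 hρ hD1 hD3 z h0 h1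
  refine ⟨PI k m (n + 1) t, PI_PI _ _, ?_⟩
  rw [DD_PI hUNI h2 hρ hD1 hD3, ← ht, hz]

lemma PI_one (n : ℕ) (z : Finset (Fin m) → ND k m) (hz : PI k m (n + 1) z = z) : z ∅ 1 = 0 := by
  rw [← hz, PI_apply, pn_apply]
  have : (1 : MvPolynomial (Fin m) k) ∈ homogeneousSubmodule (Fin m) k 0 :=
    isHomogeneous_one (Fin m) k
  rw [homogeneousComponent_of_mem this, if_neg (by omega), map_zero]

/-- the point functional of degree `n` -/
noncomputable def pt (y : Module.Basis (Fin m) k g1) (x : g1) (n : ℕ) : ND k m :=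
  (aeval (fun i => y.repr x i) : MvPolynomial (Fin m) k →ₐ[k] k).toLinearMap ∘ₗ
    (homogeneousComponent n : MvPolynomial (Fin m) k →ₗ[k] MvPolynomial (Fin m) k)

lemma pt_apply (x : g1) (n : ℕ) (P : MvPolynomial (Fin m) k) :
    pt y x n P = eval (fun i => y.repr x i) (homogeneousComponent n P) := by
  simp [pt, aeval_eq_eval]

lemma mT_pt (x : g1) (n : ℕ) (i : Fin m) : mT (X i) (pt y x (n + 1)) = y.repr x i • pt y x n := by
  refine LinearMap.ext fun P => ?_
  rw [mT_apply, pt_apply, hC_X, map_mul, eval_X, LinearMap.smul_apply, pt_apply, smul_eq_mul]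

/-- the point vector of degree `n` -/
noncomputable def un (y : Module.Basis (Fin m) k g1) (x : g1) (n : ℕ) :
    Finset (Fin m) → ND k m := Pi.single ∅ (pt y x n)

lemma DD_un
    (hD1 : ∀ φ, DD (Pi.single ∅ φ) = ∑ i, ρ.r1 (y i) (Pi.single ∅ (mT (X i) φ)))
    (x : g1) (n : ℕ) : DD (un y x (n + 1)) = ρ.r1 x (un y x n) := by
  rw [un, hD1, r1_sum (y := y) x]
  refine Finset.sum_congr rfl fun i _ => ?_
  rw [mT_pt]
  have : (Pi.single ∅ (y.repr x i • pt y x n) : Finset (Fin m) → ND k m) =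
      y.repr x i • un y x n := by
    change LinearMap.single k (fun _ : Finset (Fin m) => ND k m) ∅ _ = _
    rw [map_smul]
    rfl
  rw [this, map_smul]

lemma PI_un (x : g1) (n : ℕ) : PI k m n (un y x n) = un y x n := by
  rw [un, PI_single]
  congr 1
  refine LinearMap.ext fun P => ?_
  rw [pn_apply, pt_apply, pt_apply,
    homogeneousComponent_of_mem (homogeneousComponent_isHomogeneous n P), if_pos rfl]

lemma un_zero_one (x : g1) : (un y x 0) ∅ 1 = 1 := by
  rw [un, Pi.single_eq_same, pt_apply]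
  have : (1 : MvPolynomial (Fin m) k) ∈ homogeneousSubmodule (Fin m) k 0 :=
    isHomogeneous_one (Fin m) k
  rw [homogeneousComponent_of_mem this, if_pos rfl, map_one]

lemma DD_PI_zero (hUNI : S_UNI.{u}) (h2 : (2 : k) ≠ 0) (hρ : IsInd L m y (n0 L y) ρ)
    (hD1 : ∀ φ, DD (Pi.single ∅ φ) = ∑ i, ρ.r1 (y i) (Pi.single ∅ (mT (X i) φ)))
    (hD3 : ∀ x v, DD (ρ.r1 x v) = ρ.r1 x (DD v)) (v : Finset (Fin m) → ND k m) :
    DD (PI k m 0 v) = 0 := by
  have h : DD ∘ₗ PI k m 0 = 0 := by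
    refine ind_single hρ _ _ (fun i w => ρ.r1 (y i) w) ?_ ?_ ?_
    · intro φ
      rw [LinearMap.comp_apply, PI_single, hD1, LinearMap.zero_apply]
      refine Finset.sum_eq_zero fun i _ => ?_
      rw [pn_mT_zero, Pi.single_zero, map_zero]
    · intro i v
      rw [LinearMap.comp_apply, (PI_equiv hUNI h2 hρ 0).2, hD3]
      rfl
    · intro i v
      simp
  exact LinearMap.congr_fun h v

/-- Claim 1 (zigzag), with the degree `n + 1` written out -/
lemma claim1 [Infinite k] (hUNI : S_UNI.{u}) (h2 : (2 : k) ≠ 0)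
    (hρ : IsInd L m y (n0 L y) ρ)
    (hD1 : ∀ φ, DD (Pi.single ∅ φ) = ∑ i, ρ.r1 (y i) (Pi.single ∅ (mT (X i) φ)))
    (hD3 : ∀ x v, DD (ρ.r1 x v) = ρ.r1 x (DD v)) (x : g1) (hx : L.b11 x x = 0)
    (hacy : LinearMap.ker (ρ.r1 x) = LinearMap.range (ρ.r1 x)) (n : ℕ) :
    ∀ w : Finset (Fin m) → ND k m, PI k m n w = w → DD w = 0 → w ∅ 1 = 0 → ρ.r1 x w = 0 →
      ∃ (c : k) (s : Finset (Fin m) → ND k m), PI k m (n + 1) s = s ∧
        w = c • DD (un y x (n + 1)) + ρ.r1 x (DD s) := by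
  induction n with
  | zero =>
    intro w hw h0 h1 hr
    obtain ⟨v0, hv0⟩ : w ∈ LinearMap.range (ρ.r1 x) := hacy ▸ LinearMap.mem_ker.2 hr
    set v := PI k m 0 v0 with hv
    have e1 : w = ρ.r1 x v := by
      rw [hv, ← (PI_equiv hUNI h2 hρ 0).2, hv0, hw]
    have e2 : PI k m 0 v = v := PI_PI _ _
    have e3 : PI k m 0 (v - (v ∅ 1) • un y x 0) = v - (v ∅ 1) • un y x 0 := by
      rw [map_sub, map_smul, e2, PI_un]
    obtain ⟨s, hs1, hs2⟩ := exact_deg hUNI h2 hρ hD1 hD3 0 (v - (v ∅ 1) • un y x 0)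
      e3
      (by rw [← e3]; exact DD_PI_zero hUNI h2 hρ hD1 hD3 _)
      (by
        rw [Pi.sub_apply, LinearMap.sub_apply, Pi.smul_apply, LinearMap.smul_apply, un_zero_one]
        simp)
    refine ⟨v ∅ 1, s, hs1, ?_⟩
    rw [DD_un hD1, ← hs2, map_sub, map_smul, add_sub_cancel, e1]
  | succ n ih =>
    intro w hw h0 h1 hr
    obtain ⟨v0, hv0⟩ : w ∈ LinearMap.range (ρ.r1 x) := hacy ▸ LinearMap.mem_ker.2 hr
    set v := PI k m (n + 1) v0 with hv
    have e1 : w = ρ.r1 x v := by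
      rw [hv, ← (PI_equiv hUNI h2 hρ (n + 1)).2, hv0, hw]
    have e2 : PI k m (n + 1) v = v := PI_PI _ _
    obtain ⟨c, s', hs'1, hs'2⟩ := ih (DD v)
      (by rw [← DD_PI hUNI h2 hρ hD1 hD3, e2])
      (DD_DD h2 hρ hD1 hD3 v) (inv_DD hUNI h2 hρ hD1 hD3 1 der_one v)
      (by rw [← hD3, ← e1, h0])
    obtain ⟨s, hs1, hs2⟩ := exact_deg hUNI h2 hρ hD1 hD3 (n + 1)
      (v - c • un y x (n + 1) - ρ.r1 x s')
      (by rw [map_sub, map_sub, map_smul, e2, PI_un, (PI_equiv hUNI h2 hρ (n + 1)).2, hs'1])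
      (by
        rw [map_sub, map_sub, map_smul, hD3, hs'2]
        abel)
      (PI_one n _ (by rw [map_sub, map_sub, map_smul, e2, PI_un, (PI_equiv hUNI h2 hρ (n + 1)).2, hs'1]))
    refine ⟨c, s, hs1, ?_⟩
    rw [DD_un hD1, ← hs2, map_sub, map_sub, map_smul, r1_r1 h2 x hx, e1]
    abel

/-- Claim 2 -/
lemma claim2 [Infinite k] (hUNI : S_UNI.{u}) (h2 : (2 : k) ≠ 0)
    (hρ : IsInd L m y (n0 L y) ρ)
    (hD1 : ∀ φ, DD (Pi.single ∅ φ) = ∑ i, ρ.r1 (y i) (Pi.single ∅ (mT (X i) φ)))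
    (hD3 : ∀ x v, DD (ρ.r1 x v) = ρ.r1 x (DD v)) (x : g1)
    (hacy : LinearMap.ker (ρ.r1 x) = LinearMap.range (ρ.r1 x)) (n : ℕ) :
    ∀ s : Finset (Fin m) → ND k m, DD (un y x (n + 1)) ≠ ρ.r1 x (DD s) := by
  induction n with
  | zero =>
    intro s hs
    rw [DD_un hD1, ← sub_eq_zero, ← map_sub] at hs
    obtain ⟨t, ht⟩ : un y x 0 - DD s ∈ LinearMap.range (ρ.r1 x) := hacy ▸ LinearMap.mem_ker.2 hs
    have h1 : (un y x 0 - DD s) ∅ 1 = 1 := by
      rw [Pi.sub_apply, LinearMap.sub_apply, un_zero_one, inv_DD hUNI h2 hρ hD1 hD3 1 der_one,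
        sub_zero]
    rw [← ht, (inv_functional hUNI h2 hρ 1 der_one).2] at h1
    exact one_ne_zero h1.symm
  | succ n ih =>
    intro s hs
    rw [DD_un hD1, ← sub_eq_zero, ← map_sub] at hs
    obtain ⟨t, ht⟩ : un y x (n + 1) - DD s ∈ LinearMap.range (ρ.r1 x) :=
      hacy ▸ LinearMap.mem_ker.2 hs
    refine ih t ?_
    rw [← hD3, ht, map_sub, DD_DD h2 hρ hD1 hD3, sub_zero]

end

end Pool.Agent.U256.SV.KOS
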