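import Mathlib
import Pool.Agent.U450.SV.Stm
import Pool.Agent.U256.SV.KD

/-!
# Project SV, package KOS: `S_PBW → S_ACY → S_UNI → S_HYP`
-/

set_option autoImplicit false

universe u

namespace Pool.Agent.U256.SV.KOS

open Pool.Agent.U450.SV MvPolynomial

section

variable {k g0 g1 : Type u} [Field k] [AddCommGroup g0] [Module k g0]
  [AddCommGroup g1] [Module k g1] {m : ℕ}
  {L : LieSuper k g0 g1}

/-- restriction of a supermodule to a stable subspace -/
def restr {V : Type u} [AddCommGroup V] [Module k V] (ρ : SMod L V) (W : Submodule k V)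
    (hσ : ∀ w ∈ W, ρ.σ w ∈ W) (h0 : ∀ a, ∀ w ∈ W, ρ.r0 a w ∈ W)
    (h1 : ∀ x, ∀ w ∈ W, ρ.r1 x w ∈ W) : SMod L W where
  σ := (ρ.σ).restrict hσ
  r0 :=
    { toFun := fun a => (ρ.r0 a).restrict (h0 a)
      map_add' := by
        intro a b
        refine LinearMap.ext fun w => Subtype.ext ?_
        simp
      map_smul' := by
        intro c a
        refine LinearMap.ext fun w => Subtype.ext ?_
        simp }
  r1 :=
    { toFun := fun x => (ρ.r1 x).restrict (h1 x)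
      map_add' := by
        intro a b
        refine LinearMap.ext fun w => Subtype.ext ?_
        simp
      map_smul' := by
        intro c a
        refine LinearMap.ext fun w => Subtype.ext ?_
        simp }
  σσ := by
    refine LinearMap.ext fun w => Subtype.ext ?_
    exact LinearMap.congr_fun ρ.σσ (w : V)
  σ0 := by
    intro a
    refine LinearMap.ext fun w => Subtype.ext ?_
    exact LinearMap.congr_fun (ρ.σ0 a) (w : V)
  σ1 := by
    intro x
    refine LinearMap.ext fun w => Subtype.ext ?_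
    exact LinearMap.congr_fun (ρ.σ1 x) (w : V)
  h00 := by
    intro a b
    refine LinearMap.ext fun w => Subtype.ext ?_
    exact LinearMap.congr_fun (ρ.h00 a b) (w : V)
  h01 := by
    intro a x
    refine LinearMap.ext fun w => Subtype.ext ?_
    exact LinearMap.congr_fun (ρ.h01 a x) (w : V)
  h11 := by
    intro x z
    refine LinearMap.ext fun w => Subtype.ext ?_
    exact LinearMap.congr_fun (ρ.h11 x z) (w : V)

lemma restr_r1 {V : Type u} [AddCommGroup V] [Module k V] (ρ : SMod L V) (W : Submodule k V)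
    (hσ : ∀ w ∈ W, ρ.σ w ∈ W) (h0 : ∀ a, ∀ w ∈ W, ρ.r0 a w ∈ W)
    (h1 : ∀ x, ∀ w ∈ W, ρ.r1 x w ∈ W) (x : g1) (w : W) :
    (((restr ρ W hσ h0 h1).r1 x w : W) : V) = ρ.r1 x (w : V) := rfl

lemma restr_acyclic {V : Type u} [AddCommGroup V] [Module k V] (ρ : SMod L V) (W : Submodule k V)
    (hσ : ∀ w ∈ W, ρ.σ w ∈ W) (h0 : ∀ a, ∀ w ∈ W, ρ.r0 a w ∈ W)
    (h1 : ∀ x, ∀ w ∈ W, ρ.r1 x w ∈ W) (x : g1) (hx : ∀ v, ρ.r1 x (ρ.r1 x v) = 0) :
    (LinearMap.ker ((restr ρ W hσ h0 h1).r1 x) = LinearMap.range ((restr ρ W hσ h0 h1).r1 x)) ↔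
      ∀ w ∈ W, ρ.r1 x w = 0 → ∃ w' ∈ W, w = ρ.r1 x w' := by
  constructor
  · intro h w hw h3
    have h4 : (⟨w, hw⟩ : W) ∈ LinearMap.range ((restr ρ W hσ h0 h1).r1 x) := by
      rw [← h, LinearMap.mem_ker]
      refine Subtype.ext ?_
      rw [restr_r1]
      exact h3
    obtain ⟨w', hw'⟩ := h4
    refine ⟨w', w'.2, ?_⟩
    rw [← restr_r1 ρ W hσ h0 h1, hw']
  · intro h
    refine le_antisymm ?_ ?_
    · intro w hw
      rw [LinearMap.mem_ker] at hw
      obtain ⟨w', hw', h3⟩ := h w w.2 (by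
        rw [← restr_r1 ρ W hσ h0 h1, hw]
        rfl)
      refine ⟨⟨w', hw'⟩, Subtype.ext ?_⟩
      rw [restr_r1]
      exact h3.symm
    · rintro _ ⟨w, rfl⟩
      rw [LinearMap.mem_ker]
      refine Subtype.ext ?_
      rw [restr_r1, restr_r1, hx]
      rfl

/-- the cycles of degree `n` killed by `Q` -/
noncomputable def Zs (k : Type u) [Field k] (m n : ℕ) (Q : MvPolynomial (Fin m) k) :
    Submodule k (Finset (Fin m) → ND k m) where
  carrier := {z | PI k m n z = z ∧ z ∅ Q = 0}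
  add_mem' := by
    rintro a b ⟨h1, h2⟩ ⟨h3, h4⟩
    refine ⟨by rw [map_add, h1, h3], ?_⟩
    rw [Pi.add_apply, LinearMap.add_apply, h2, h4, add_zero]
  zero_mem' := ⟨map_zero _, by simp⟩
  smul_mem' := by
    rintro c a ⟨h1, h2⟩
    refine ⟨by rw [map_smul, h1], ?_⟩
    rw [Pi.smul_apply, LinearMap.smul_apply, h2, smul_zero]

lemma finite_Zs (n : ℕ) (Q : MvPolynomial (Fin m) k) : Module.Finite k (Zs k m n Q) := by
  have hfin : Finite {α : Fin m →₀ ℕ // Finsupp.degree α ≤ n} :=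
    (Finsupp.finite_of_degree_le n).to_subtype
  let Θ : (Zs k m n Q) →ₗ[k] (Finset (Fin m) × {α : Fin m →₀ ℕ // Finsupp.degree α ≤ n} → k) :=
    { toFun := fun z q => (z : Finset (Fin m) → ND k m) q.1 (monomial q.2.1 1)
      map_add' := by
        intro a b
        funext q
        simp
      map_smul' := by
        intro c a
        funext q
        simp }
  refine Module.Finite.of_injective Θ ?_
  rw [injective_iff_map_eq_zero]
  intro z hz
  refine Subtype.ext ?_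
  funext T
  refine (basisMonomials (Fin m) k).ext fun α => ?_
  rw [coe_basisMonomials]
  change (z : Finset (Fin m) → ND k m) T (monomial α 1) = 0
  by_cases hα : Finsupp.degree α ≤ n
  · exact congrFun hz (T, ⟨α, hα⟩)
  · rw [← z.2.1, PI_apply, pn_apply]
    have h1 : (monomial α 1 : MvPolynomial (Fin m) k) ∈
        homogeneousSubmodule (Fin m) k (Finsupp.degree α) := isHomogeneous_monomial _ rfl
    rw [homogeneousComponent_of_mem h1, if_neg (by omega), map_zero]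

end

/-- Package KOS -/
theorem t_KOS : S_PBW.{u} → S_ACY.{u} → S_UNI.{u} → S_HYP.{u} := by
  intro hPBW hACY hUNI k g0 g1 _ _ _ _ _ _ p _ _ hp L m y e he f hf
  have h2 : (2 : k) ≠ 0 := by
    intro h
    have h3 : ((2 : ℕ) : k) = 0 := by exact_mod_cast h
    have h4 := (CharP.cast_eq_zero_iff k p 2).1 h3
    have := Nat.le_of_dvd (by norm_num) h4
    omega
  obtain ⟨ρ, hρ⟩ := hPBW k g0 g1 (ND k m) h2 L m y (n0 L y) (n0_hom L y)
  obtain ⟨DD, hD1, hD2, hD3⟩ := exists_DD hUNI h2 hρ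
  obtain ⟨n, hn⟩ : ∃ n, e * p = n + 1 :=
    ⟨e * p - 1, by have : 0 < e * p := Nat.mul_pos he (by omega); omega⟩
  set Q : MvPolynomial (Fin m) k := f ^ p with hQdef
  have hQ : ∀ a, der L y a Q = 0 := by
    intro a
    rw [hQdef, Derivation.leibniz_pow, nsmul_eq_mul, CharP.cast_eq_zero, zero_mul]
  have hQh : Q ∈ homogeneousSubmodule (Fin m) k (n + 1) := by
    have := hf.pow p
    rw [hn] at this
    exact this
  have hinv := inv_functional hUNI h2 hρ Q hQ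
  set W : Submodule k (Finset (Fin m) → ND k m) := (Zs k m (n + 1) Q).map DD with hW
  have hWfin : Module.Finite k W := by
    have := finite_Zs (k := k) (n + 1) Q
    rw [hW]
    infer_instance
  have hmem : ∀ w, w ∈ W ↔ ∃ z, (PI k m (n + 1) z = z ∧ z ∅ Q = 0) ∧ DD z = w := fun w => Iff.rfl
  have hPIσ : ∀ v, PI k m (n + 1) (ρ.σ v) = ρ.σ (PI k m (n + 1) v) := by
    intro v
    funext T
    rw [PI_apply, hρ.1, map_smul, hρ.1, PI_apply]
  have hσ : ∀ w ∈ W, ρ.σ w ∈ W := by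
    intro w hw
    obtain ⟨z, ⟨hz1, hz2⟩, rfl⟩ := (hmem w).1 hw
    refine (hmem _).2 ⟨-ρ.σ z, ⟨?_, ?_⟩, ?_⟩
    · rw [map_neg, hPIσ, hz1]
    · rw [Pi.neg_apply, LinearMap.neg_apply, hρ.1]
      simp [hz2]
    · rw [map_neg, DD_σ hρ hD1 hD3, neg_neg]
  have h0 : ∀ a, ∀ w ∈ W, ρ.r0 a w ∈ W := by
    intro a w hw
    obtain ⟨z, ⟨hz1, hz2⟩, rfl⟩ := (hmem w).1 hw
    exact (hmem _).2 ⟨ρ.r0 a z, ⟨by rw [(PI_equiv hUNI h2 hρ (n + 1)).1, hz1], hinv.1 a z⟩,
      hD2 a z⟩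
  have h1 : ∀ x, ∀ w ∈ W, ρ.r1 x w ∈ W := by
    intro x w hw
    obtain ⟨z, ⟨hz1, hz2⟩, rfl⟩ := (hmem w).1 hw
    exact (hmem _).2 ⟨ρ.r1 x z, ⟨by rw [(PI_equiv hUNI h2 hρ (n + 1)).2, hz1], hinv.2 x z⟩,
      hD3 x z⟩
  refine ⟨W, inferInstance, inferInstance, hWfin, restr ρ W hσ h0 h1, ?_⟩
  intro x hx hx0
  have hacy := hACY k g0 g1 (ND k m) h2 L m y (n0 L y) ρ hρ x hx hx0
  rw [restr_acyclic ρ W hσ h0 h1 x (r1_r1 h2 x hx)]
  have hFu : (un y x (n + 1)) ∅ Q = (eval (fun i => y.repr x i) f) ^ p := by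
    rw [un, Pi.single_eq_same, pt_apply, homogeneousComponent_of_mem hQh, if_pos rfl, hQdef,
      map_pow]
  constructor
  · intro h hf0
    have hu : DD (un y x (n + 1)) ∈ W := by
      refine (hmem _).2 ⟨un y x (n + 1), ⟨PI_un x (n + 1), ?_⟩, rfl⟩
      rw [hFu, hf0, zero_pow (by omega)]
    obtain ⟨w', hw', h3⟩ := h _ hu (by rw [DD_un hD1, r1_r1 h2 x hx])
    obtain ⟨s, _, rfl⟩ := (hmem w').1 hw'
    exact claim2 hUNI h2 hρ hD1 hD3 x hacy n s h3
  · intro hf0 w hw hr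
    obtain ⟨z, ⟨hz1, hz2⟩, rfl⟩ := (hmem w).1 hw
    have hPIn : PI k m n (DD z) = DD z := by rw [← DD_PI hUNI h2 hρ hD1 hD3, hz1]
    obtain ⟨c, s, hs1, hs2⟩ := claim1 hUNI h2 hρ hD1 hD3 x hx hacy n (DD z) hPIn
      (DD_DD h2 hρ hD1 hD3 z) (inv_DD hUNI h2 hρ hD1 hD3 1 der_one z) hr
    have h3 : DD (z - c • un y x (n + 1) - ρ.r1 x s) = 0 := by
      rw [map_sub, map_sub, map_smul, hD3, hs2]
      abel
    have h4 : PI k m (n + 1) (z - c • un y x (n + 1) - ρ.r1 x s) =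
        z - c • un y x (n + 1) - ρ.r1 x s := by
      rw [map_sub, map_sub, map_smul, hz1, PI_un, (PI_equiv hUNI h2 hρ (n + 1)).2, hs1]
    obtain ⟨t, _, ht⟩ := exact_deg hUNI h2 hρ hD1 hD3 (n + 1) _ h4 h3 (PI_one n _ h4)
    have h5 := inv_DD hUNI h2 hρ hD1 hD3 Q hQ t
    rw [← ht, Pi.sub_apply, Pi.sub_apply, Pi.smul_apply, LinearMap.sub_apply, LinearMap.sub_apply,
      LinearMap.smul_apply, hz2, hFu, hinv.2, sub_zero, zero_sub, neg_eq_zero, smul_eq_mul] at h5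
    have hfp : (eval (fun i => y.repr x i) f) ^ p ≠ 0 := pow_ne_zero _ hf0
    have hc : c = 0 := (mul_eq_zero.1 h5).resolve_right hfp
    set lam : k := (s ∅ Q) / (eval (fun i => y.repr x i) f) ^ p with hlam
    refine ⟨DD (s - lam • un y x (n + 1)), (hmem _).2 ⟨s - lam • un y x (n + 1), ⟨?_, ?_⟩, rfl⟩, ?_⟩
    · rw [map_sub, map_smul, hs1, PI_un]
    · rw [Pi.sub_apply, Pi.smul_apply, LinearMap.sub_apply, LinearMap.smul_apply, hFu, hlam,
        smul_eq_mul, div_mul_cancel₀ _ hfp, sub_self]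
    · rw [hs2, hc, zero_smul, zero_add, map_sub, map_sub, map_smul, map_smul, DD_un hD1,
        r1_r1 h2 x hx, smul_zero, sub_zero]

end Pool.Agent.U256.SV.KOS
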